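import Pool.Agent.Q109.Simw.Main

set_option autoImplicit false

namespace Pool.Agent.Results.MP_598d44_co.ExactValue

/-- The sim-width of the line graph of the complete graph on `n` vertices is `⌈(n - 1) / 4⌉` for
every `n ≥ 3`, and `0` for `n ≤ 2`. -/
theorem result :
    (∀ n : ℕ, 3 ≤ n →
      Q109.Simw.simw ((⊤ : SimpleGraph (Fin n)).lineGraph) = ⌈((n : ℚ) - 1) / 4⌉₊) ∧
    (∀ n : ℕ, n ≤ 2 → Q109.Simw.simw ((⊤ : SimpleGraph (Fin n)).lineGraph) = 0) := by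
  refine ⟨?_, fun n hn => Q109.Simw.simw_small hn⟩
  intro n hn
  have h := Q109.Simw.simw_eq hn
  rw [h]
  symm
  have hm1 : 4 * ((n + 2) / 4) ≤ n + 2 := Nat.mul_div_le _ _
  have hm2 : n + 2 < 4 * ((n + 2) / 4) + 4 := by omega
  have h0 : (n + 2) / 4 ≠ 0 := by omega
  rw [Nat.ceil_eq_iff h0]
  obtain ⟨m, hm⟩ : ∃ m, (n + 2) / 4 = m + 1 := ⟨(n + 2) / 4 - 1, by omega⟩
  rw [hm] at hm1 hm2 ⊢
  have q1 : ((4 * (m + 1) : ℕ) : ℚ) ≤ ((n + 2 : ℕ) : ℚ) := by exact_mod_cast hm1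
  have q2 : ((n + 2 + 1 : ℕ) : ℚ) ≤ ((4 * (m + 1) + 4 : ℕ) : ℚ) := by exact_mod_cast hm2
  push_cast at q1 q2
  constructor
  · simp only [Nat.add_sub_cancel]
    rw [lt_div_iff₀ (by norm_num)]
    linarith
  · push_cast
    rw [div_le_iff₀ (by norm_num)]
    linarith

end Pool.Agent.Results.MP_598d44_co.ExactValue
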